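import Pool.Agent.H37.CNR.Stmts
import Pool.Agent.H37.CNS.Stmts
import Pool.Agent.H1.CNZ.TWI

/-!
# Row WRP of the board `cnr`: the wreath products `C_p ≀ H`, `H` a `p`-group
-/

set_option autoImplicit false

namespace Pool.CND

/-- the inertia orders for a `p`-group -/
theorem wrp_ino (hPTR : S_PTR) (hPEX : S_PEX) (hEXI : S_EXI) (p : ℕ) (k H : Type) [Field k]
    [IsAlgClosed k] [Group H] [Finite H] (hp : p.Prime) (hch : CharP k p)
    (hH : ∃ n : ℕ, Nat.card H = p ^ n) (e : ℕ) : e ∈ Ino k H ↔ e = Nat.card H := by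
  have key : ∀ (L : Type) [Field L] [Algebra k L] (ρ : H →* (L ≃ₐ[k] L)) (t : L) (P : Place k L),
      IsCover ρ t → P.ord t < 0 → (ram P ρ 0).ncard = Nat.card H := by
    intro L _ _ ρ t P hc hP
    have h1 := hPTR p k L H ρ t P hp hch hH hc hP
    have h0 : ram P ρ 0 = Set.univ := by
      apply Set.eq_univ_of_forall
      intro g
      have hg : g ∈ ram P ρ 1 := by rw [h1]; trivial
      refine ⟨hg.1, fun u hu hu1 => ?_⟩
      rcases hg.2 u hu hu1 with h | h
      · exact Or.inl h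
      · right
        push_cast at h ⊢
        linarith
    rw [h0, Set.ncard_univ]
  constructor
  · rintro ⟨L, _, _, ρ, t, hc, P, hP, rfl⟩
    exact key L ρ t P hc hP
  · rintro rfl
    obtain ⟨L, iL, iA, x, ρ, -, hc⟩ := hPEX p k H (fun _ => 0) hp hH (fun _ _ => by simp)
    obtain ⟨hfin, hsep⟩ := TWI.fin_sep ρ _ hc
    obtain ⟨P, hP⟩ := hEXI k L _ hc.trans hfin hsep
    exact ⟨L, iL, iA, ρ, _, hc, P, hP, (key L ρ _ P hc hP).symm⟩

theorem wrp_thm (hWRE : S_WRE) (hPTR : S_PTR) (hPEX : S_PEX) (hEXI : S_EXI) : S_WRP := by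
  intro p k H _ _ _ _ hp hch hH
  have hI := wrp_ino hPTR hPEX hEXI p k H hp hch hH
  obtain ⟨h1, h2⟩ := hWRE p k H hp hch
  have h3 := h1 _ ((hI _).2 rfl)
  have h4 := (h2 (Nat.card H) Nat.card_pos (fun e he => by rw [(hI e).1 he])).2
  refine ⟨fun hp2 => ?_, h4, h3⟩
  have h5 : Nat.gcd 2 p = 1 := (Nat.coprime_primes Nat.prime_two hp).2 (Ne.symm hp2)
  rw [h5, one_mul] at h3
  exact Nat.dvd_antisymm h4 h3

end Pool.CND
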